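import Mathlib
import Pool.Agent.Lib.helper9.MdmGeo

set_option autoImplicit false

namespace Pool.Agent.Results.MP_497448_gt.NotUnique

open MeasureTheory

/-- the closed `r`-neighbourhood of a set -/
def nbhd {d : ℕ} (r : ℝ) (S : Set (EuclideanSpace ℝ (Fin d))) : Set (EuclideanSpace ℝ (Fin d)) :=
  {x | Metric.infDist x S ≤ r}

/-- `S` is an `r`-minimizer for `M`: a connected compact set whose closed `r`-neighbourhood contains
`M`, of least length among all such sets -/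
def IsMinimizer {d : ℕ} (M : Set (EuclideanSpace ℝ (Fin d))) (r : ℝ)
    (S : Set (EuclideanSpace ℝ (Fin d))) : Prop :=
  IsCompact S ∧ IsConnected S ∧ M ⊆ nbhd r S ∧
    ∀ W : Set (EuclideanSpace ℝ (Fin d)), IsCompact W → IsConnected W → M ⊆ nbhd r W →
      Measure.hausdorffMeasure 1 S ≤ Measure.hausdorffMeasure 1 W

lemma nbhd_eq {S : Set H9M.E} (h : IsCompact S) (h' : S.Nonempty) :
    nbhd 60 S = Metric.cthickening 60 S := by
  ext x
  constructor
  · intro hx
    obtain ⟨y, hy, e⟩ := h.exists_infDist_eq_dist h' x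
    exact Metric.mem_cthickening_of_dist_le x y _ _ hy (e ▸ hx)
  · intro hx
    obtain ⟨y, hy, e⟩ := H9M.cover h (by norm_num) hx
    exact (Metric.infDist_le_dist_of_mem hy).trans (by rwa [dist_comm])

theorem result : ∃ (M : Set (EuclideanSpace ℝ (Fin 2))) (r : ℝ)
    (S T : Set (EuclideanSpace ℝ (Fin 2))), IsCompact M ∧ 0 < r ∧
    (¬ ∃ c, M ⊆ Metric.closedBall c r) ∧
    IsMinimizer M r S ∧ IsMinimizer (nbhd r S) r T ∧ T ≠ S := by
  have hS := nbhd_eq H9M.S0_compact H9M.S0_conn.nonempty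
  have hT := nbhd_eq H9M.T0_compact H9M.T0_conn.nonempty
  have hM := H9M.M12_sub fun _ _ => H9M.S0_vert
  refine ⟨H9M.M12, 60, H9M.S0, H9M.T0, H9M.M12_compact, by norm_num, H9M.nondeg,
    ⟨H9M.S0_compact, H9M.S0_conn, hS ▸ hM, fun W h1 h2 h3 => ?_⟩,
    ⟨H9M.T0_compact, H9M.T0_conn, ?_, fun W h1 h2 h3 => ?_⟩, H9M.S0_ne.symm⟩
  · rw [nbhd_eq h1 h2.nonempty] at h3
    exact H9M.S0_len.trans (H9M.lower12 W h1 h2 h3)
  · rw [hS, hT]
    exact H9M.thick_sub
  · rw [nbhd_eq h1 h2.nonempty, hS] at h3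
    exact H9M.T0_len.trans (H9M.lower12 W h1 h2 (hM.trans h3))

end Pool.Agent.Results.MP_497448_gt.NotUnique
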